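import Pool.Agent.H31.UF.Stm4

/-!
# A Borel colouring of a forest with infinite clusters

Adapted from the library module `Helper611.UF.Cell` (there for 3-regular graphs).
-/

set_option autoImplicit false

namespace H31.UF.Cell

open MeasureTheory Set Pool.Agent.Helper611.UF Pool.Agent.Helper611.UF.Cell
  Pool.Agent.Helper611.UF.Vor

/-- CELL -/
theorem main (hENUM : S_ENUM) (hEX : S_EX) (hREACH : S_REACH) (hBALL : S_BALL)
    (hVOR : S_VOR) (hCON : S_CON) (hDEG : T_DEG) (hQ : S_Q) : T_CELL := by
  classical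
  intro V _ _ F Δ hF hac hF2 hF3
  obtain ⟨w, hw, -⟩ := hENUM V F Δ hF
  obtain ⟨a, ham, haa, had, hanext, hanear⟩ := hVOR V F Δ hF 4800
  have har : ∀ x, F.Reachable x (a x) := fun x => (had x).1
  have had' : ∀ x, F.dist x (a x) ≤ 2 * 4800 := fun x => (had x).2
  obtain ⟨hQac, huniq⟩ := hCON V F a hac haa hanext har
  -- the cells are finite
  have hcfin : ∀ x, {y | a y = a x}.Finite := by
    intro x
    obtain ⟨M, hM⟩ := hBALL V F Δ hF.deg (2 * 4800)
    have h1 : {y | F.Reachable (a x) y ∧ F.dist (a x) y ≤ 2 * 4800}.Finite := by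
      rw [← Set.encard_lt_top_iff]
      exact (hM (a x)).trans_lt (ENat.natCast_lt_top M)
    refine h1.subset fun y hy => ?_
    have hy' : a y = a x := hy
    rw [mem_ofPred_eq, ← hy', SimpleGraph.dist_comm]
    exact ⟨(har y).symm, had' y⟩
  have hdeg := hDEG V F a Δ hac haa hanext har hcfin hF.deg hF2 hF3
    (fun x y hx hr hd => hanear x y hx hr hd) huniq
  -- the space of cells
  have hWm : MeasurableSet {x : V | a x = x} := measurableSet_eq2 ham measurable_id
  have hSB : StandardBorelSpace {x : V // a x = x} := hWm.standardBorel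
  -- the degrees
  obtain ⟨M, hM⟩ := hBALL V F Δ hF.deg (4 * 4800 + 1)
  have hQdeg : ∀ p, ((Cells F a).neighborSet p).encard ≤ M := by
    intro p
    refine le_trans ?_ (hM p.1)
    rw [← (Subtype.val_injective).encard_image ((Cells F a).neighborSet p)]
    refine Set.encard_le_encard ?_
    rintro _ ⟨q, hq, rfl⟩
    refine ⟨reach_of_cells har hq, ?_⟩
    obtain ⟨-, x, y, hxy, hx, hy⟩ := hq
    have h1 := had' x
    have h2 := had' y
    rw [hx] at h1
    rw [hy] at h2
    have h3 : F.Reachable p.1 x := by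
      rw [← hx]
      exact (har x).symm
    have h4 := h3.dist_triangle_left q.1
    have h5 := (hxy.reachable).dist_triangle_left q.1
    rw [SimpleGraph.dist_eq_one_iff_adj.2 hxy] at h5
    rw [SimpleGraph.dist_comm] at h1
    omega
  -- measurability of relations between cells
  have hrel : ∀ R : V → V → Prop, Bor2 R →
      MeasurableSet {p : {x : V // a x = x} × {x : V // a x = x} |
        ∃ x y, F.Adj x y ∧ a x = p.1.1 ∧ a y = p.2.1 ∧ R x y} := by
    intro R hR
    have h1 : {p : {x : V // a x = x} × {x : V // a x = x} |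
        ∃ x y, F.Adj x y ∧ a x = p.1.1 ∧ a y = p.2.1 ∧ R x y} =
        {p : {x : V // a x = x} × {x : V // a x = x} | ∃ x, F.Reachable p.1.1 x ∧
          ∃ y, F.Reachable p.1.1 y ∧ (F.Adj x y ∧ a x = p.1.1 ∧ a y = p.2.1 ∧ R x y)} := by
      ext p
      constructor
      · rintro ⟨x, y, hxy, hx, hy, hR⟩
        have h3 : F.Reachable p.1.1 x := by
          rw [← hx]
          exact (har x).symm
        exact ⟨x, h3, y, h3.trans hxy.reachable, hxy, hx, hy, hR⟩
      · rintro ⟨x, -, y, -, hxy, hx, hy, hR⟩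
        exact ⟨x, y, hxy, hx, hy, hR⟩
    rw [h1]
    have hm1 : Measurable fun p : {x : V // a x = x} × {x : V // a x = x} => p.1.1 :=
      measurable_subtype_coe.comp measurable_fst
    have hm2 : Measurable fun p : {x : V // a x = x} × {x : V // a x = x} => p.2.1 :=
      measurable_subtype_coe.comp measurable_snd
    refine (hEX V F.Reachable w hw ({x : V // a x = x} × {x : V // a x = x})
      (fun p => p.1.1) hm1 (fun p x => ∃ y, F.Reachable p.1.1 y ∧ (F.Adj x y ∧ a x = p.1.1 ∧ a y = p.2.1 ∧ R x y)) ?_).1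
    refine (hEX V F.Reachable w hw (({x : V // a x = x} × {x : V // a x = x}) × V)
      (fun z => z.1.1.1) (hm1.comp measurable_fst) (fun z y =>
      F.Adj z.2 y ∧ a z.2 = z.1.1.1 ∧ a y = z.1.2.1 ∧ R z.2 y) ?_).1
    have hx2 : Measurable fun p : (({x : V // a x = x} × {x : V // a x = x}) × V) × V => p.1.2 :=
      measurable_snd.comp measurable_fst
    have e1 : MeasurableSet {p : (({x : V // a x = x} × {x : V // a x = x}) × V) × V |
        F.Adj p.1.2 p.2} := (hx2.prodMk measurable_snd) hF.adj
    have e2 : MeasurableSet {p : (({x : V // a x = x} × {x : V // a x = x}) × V) × V |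
        R p.1.2 p.2} := (hx2.prodMk measurable_snd) hR
    have e3 : MeasurableSet {p : (({x : V // a x = x} × {x : V // a x = x}) × V) × V |
        a p.1.2 = p.1.1.1.1} :=
      measurableSet_eq2 (ham.comp hx2) (hm1.comp (measurable_fst.comp measurable_fst))
    have e4 : MeasurableSet {p : (({x : V // a x = x} × {x : V // a x = x}) × V) × V |
        a p.2 = p.1.1.2.1} :=
      measurableSet_eq2 (ham.comp measurable_snd) (hm2.comp (measurable_fst.comp measurable_fst))
    have e5 : {p : (({x : V // a x = x} × {x : V // a x = x}) × V) × V |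
        F.Adj p.1.2 p.2 ∧ a p.1.2 = p.1.1.1.1 ∧ a p.2 = p.1.1.2.1 ∧ R p.1.2 p.2} =
        {p | F.Adj p.1.2 p.2} ∩ ({p | a p.1.2 = p.1.1.1.1} ∩ ({p | a p.2 = p.1.1.2.1} ∩
          {p | R p.1.2 p.2})) := by
      ext p
      rfl
    rw [e5]
    exact e1.inter (e3.inter (e4.inter e2))
  have hQm : Bor2 (Cells F a).Adj := by
    have h1 : {p : {x : V // a x = x} × {x : V // a x = x} | (Cells F a).Adj p.1 p.2} =
        {p : {x : V // a x = x} × {x : V // a x = x} | p.1.1 = p.2.1}ᶜ ∩
        {p : {x : V // a x = x} × {x : V // a x = x} |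
        ∃ x y, F.Adj x y ∧ a x = p.1.1 ∧ a y = p.2.1 ∧ True} := by
      ext p
      simp only [mem_ofPred_eq, mem_inter_iff, mem_compl_iff, and_true]
      constructor
      · rintro ⟨hne, h⟩
        exact ⟨fun h' => hne (Subtype.ext h'), h⟩
      · rintro ⟨hne, h⟩
        exact ⟨fun h' => hne (congrArg Subtype.val h'), h⟩
    unfold Bor2
    rw [h1]
    refine (measurableSet_eq2 (measurable_subtype_coe.comp measurable_fst)
      (measurable_subtype_coe.comp measurable_snd)).compl.inter (hrel (fun _ _ => True) ?_)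
    have h2 : {p : V × V | (fun _ _ : V => True) p.1 p.2} = univ := by
      ext
      simp
    unfold Bor2
    rw [h2]
    exact MeasurableSet.univ
  -- the parity of the distance to the centre
  obtain ⟨χ, hχ⟩ : ∃ χ : V → Bool, ∀ x, χ x = (F.dist x (a x)).bodd := ⟨_, fun _ => rfl⟩
  have hχm : Measurable χ := by
    have h1 : χ = fun x => (F.dist x (a x)).bodd := funext hχ
    rw [h1]
    exact (measurable_of_countable Nat.bodd).comp (meas_dist hENUM hREACH hF measurable_id ham)
  have hχadj : ∀ x y, F.Adj x y → a x = a y → χ x ≠ χ y := by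
    intro x y hxy h
    have h1 := hac.dist_eq_dist_add_one_of_adj_of_reachable (a x) hxy (har x).symm
    rw [hχ, hχ, ← h, SimpleGraph.dist_comm (u := x), SimpleGraph.dist_comm (u := y)]
    rcases h1 with h1 | h1
    · rw [h1, Nat.bodd_succ]
      simp
    · rw [h1, Nat.bodd_succ]
      simp
  -- the signs
  obtain ⟨τ, hτ⟩ : ∃ τ : {x : V // a x = x} → {x : V // a x = x} → Bool, ∀ p q, τ p q =
      !decide (∃ x y, F.Adj x y ∧ a x = p.1 ∧ a y = q.1 ∧ χ x ≠ χ y) := ⟨_, fun _ _ => rfl⟩
  have hτsymm : ∀ p q, τ p q = τ q p := by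
    intro p q
    rw [hτ, hτ]
    congr 1
    rw [decide_eq_decide]
    constructor
    · rintro ⟨x, y, h1, h2, h3, h4⟩
      exact ⟨y, x, h1.symm, h3, h2, h4.symm⟩
    · rintro ⟨x, y, h1, h2, h3, h4⟩
      exact ⟨y, x, h1.symm, h3, h2, h4.symm⟩
  have hτm : Bor2 (fun p q => τ p q = true) := by
    have h1 : {p : {x : V // a x = x} × {x : V // a x = x} |
        (fun p q => τ p q = true) p.1 p.2} =
        {p : {x : V // a x = x} × {x : V // a x = x} |
        ∃ x y, F.Adj x y ∧ a x = p.1.1 ∧ a y = p.2.1 ∧ χ x ≠ χ y}ᶜ := by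
      ext p
      rw [mem_compl_iff, mem_ofPred_eq, mem_ofPred_eq]
      change τ p.1 p.2 = true ↔ _
      rw [hτ]
      simp
    unfold Bor2
    rw [h1]
    refine (hrel (fun x y => χ x ≠ χ y) ?_).compl
    exact (measurableSet_eq_fun (hχm.comp measurable_fst) (hχm.comp measurable_snd)).compl
  obtain ⟨g, hg, hginf⟩ := hQ _ (Cells F a) M ⟨hQm, hQdeg⟩ hQac hdeg τ hτm hτsymm
  -- the colouring
  obtain ⟨c, hc⟩ : ∃ c : V → Bool, ∀ x, c x = xor (χ x) (g ⟨a x, haa x⟩) := ⟨_, fun _ => rfl⟩
  have hcm : Measurable c := by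
    have h1 : c = fun x => xor (χ x) (g ⟨a x, haa x⟩) := funext hc
    rw [h1]
    exact (measurable_of_countable fun b : Bool × Bool => xor b.1 b.2).comp
      (hχm.prodMk (hg.comp (ham.subtype_mk)))
  -- edges in a cell
  have hin : ∀ x y, F.Adj x y → a x = a y → (Alt F c).Adj x y := by
    intro x y hxy h
    refine ⟨hxy, ?_⟩
    have h1 : (⟨a x, haa x⟩ : {x : V // a x = x}) = ⟨a y, haa y⟩ := Subtype.ext h
    rw [hc, hc, h1]
    intro h2
    exact hχadj x y hxy h (Bool.xor_left_inj.1 h2)
  -- every point is joined to its centre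
  have hcen : ∀ n x, F.dist x (a x) = n → (Alt F c).Reachable x (a x) := by
    intro n
    induction n with
    | zero =>
      intro x hx
      rw [(har x).dist_eq_zero_iff] at hx
      rw [← hx]
    | succ n ih =>
      intro x hx
      have hne : x ≠ a x := by
        intro h
        rw [← h, SimpleGraph.dist_self] at hx
        omega
      obtain ⟨y, hxy, hay, hd⟩ := hanext x hne
      have h1 := ih y (by rw [hay]; omega)
      rw [hay] at h1
      exact (hin x y hxy hay.symm).reachable.trans h1
  have hcen' : ∀ x, (Alt F c).Reachable x (a x) := fun x => hcen _ x rfl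
  -- satisfied edges between cells
  have hout : ∀ p q, (Sat (Cells F a) τ g).Adj p q → (Alt F c).Reachable p.1 q.1 := by
    intro p q hpq
    obtain ⟨⟨hne, x, y, hxy, hx, hy⟩, hs, -⟩ := hpq
    have hpx : (⟨a x, haa x⟩ : {x : V // a x = x}) = p := Subtype.ext hx
    have hqy : (⟨a y, haa y⟩ : {x : V // a x = x}) = q := Subtype.ext hy
    have haxy : a x ≠ a y := by
      rw [hx, hy]
      exact fun h => hne (Subtype.ext h)
    have hadj : (Alt F c).Adj x y := by
      refine ⟨hxy, ?_⟩
      rw [hc, hc, hpx, hqy]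
      by_cases hxy' : χ x = χ y
      · have h1 : τ p q = true := by
          rw [hτ]
          simp only [Bool.not_eq_true', decide_eq_false_iff_not]
          rintro ⟨x', y', h2, h3, h4, h5⟩
          obtain ⟨rfl, rfl⟩ := huniq x y x' y' hxy h2 (hx.trans h3.symm) (hy.trans h4.symm) haxy
          exact h5 hxy'
        rw [h1] at hs
        rw [hxy']
        intro h2
        revert hs h2
        cases χ y <;> cases g p <;> cases g q <;> simp
      · have h1 : τ p q = false := by
          rw [hτ]
          simp only [Bool.not_eq_false', decide_eq_true_eq]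
          exact ⟨x, y, hxy, hx, hy, hxy'⟩
        rw [h1] at hs
        intro h2
        revert hs h2 hxy'
        cases χ x <;> cases χ y <;> cases g p <;> cases g q <;> simp
    have h1 := hcen' x
    have h2 := hcen' y
    rw [hx] at h1
    rw [hy] at h2
    exact (h1.symm.trans hadj.reachable).trans h2
  refine ⟨c, hcm, fun x => ?_⟩
  obtain ⟨q, hq, hinf⟩ := hginf ⟨a x, haa x⟩
  refine ⟨q.1, ?_, ?_⟩
  · exact (har x).trans (reach_map (f := Subtype.val) (fun p q h => reach_of_cells har h) hq)
  · refine Set.Infinite.mono ?_ (hinf.image (f := Subtype.val) Subtype.val_injective.injOn)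
    rintro _ ⟨z, hz, rfl⟩
    exact reach_map (f := Subtype.val) (fun p q h => hout p q h) hz

end H31.UF.Cell
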