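import Pool.Agent.H31.UF.Stm4

/-!
# The degrees in the graph of the cells

Adapted from the library module `Helper611.UF.Deg` (there for 3-regular graphs).
-/

set_option autoImplicit false

namespace H31.UF.Deg

open SimpleGraph Pool.Agent.Helper611.UF Pool.Agent.Helper611.UF.Deg

/-- There are points of degree 3 at about every distance. -/
theorem exists_three' {V : Type} {F : SimpleGraph V} (hF : F.IsAcyclic)
    (h2 : ∀ x, 2 ≤ (F.neighborSet x).ncard)
    (h3 : ∀ x, 3 ≤ (F.neighborSet x).ncard ∨ ∃ y, F.Adj x y ∧ 3 ≤ (F.neighborSet y).ncard)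
    (p : V) (i : ℕ) :
    ∃ x, F.Reachable p x ∧ 3 ≤ (F.neighborSet x).ncard ∧ F.dist p x / 3 = i := by
  obtain ⟨x, hx, hn⟩ := exists_at hF h2 p (3 * i + 1)
  rcases h3 x with h | ⟨y, hy, h⟩
  · exact ⟨x, hx, h, by omega⟩
  · refine ⟨y, hx.trans hy.reachable, h, ?_⟩
    have := hy.diff_dist_adj (u := p)
    omega

theorem main : T_DEG := by
  classical
  intro V F a Δ hF ha hc hreach hfin hdeg hdeg2 hthree hball huniq p
  have hp : a p.1 = p.1 := p.2
  obtain ⟨K, hK⟩ : ∃ K : Finset V, ∀ y, y ∈ K ↔ a y = p.1 :=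
    ⟨(hfin p.1).toFinset, fun y => by simp [hp]⟩
  have hpK : p.1 ∈ K := (hK _).2 hp
  have hnf : ∀ x, (F.neighborSet x).Finite := fun x => Set.finite_of_encard_le_coe (hdeg x)
  obtain ⟨N, hN⟩ : ∃ N : V → Finset V, ∀ x y, y ∈ N x ↔ F.Adj x y :=
    ⟨fun x => (hnf x).toFinset, by simp⟩
  have hNc : ∀ x, (F.neighborSet x).ncard = (N x).card := by
    intro x
    rw [← Set.ncard_coe_finset]
    congr 1
    ext y
    simp [hN]
  have hKr : ∀ y ∈ K, F.Reachable p.1 y := by
    intro y hy
    have := hreach y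
    rw [(hK y).1 hy] at this
    exact this.symm
  -- the edges inside the cell
  have hdown : ∀ x ∈ K, ((N x).filter fun y => y ∈ K ∧ F.dist p.1 y < F.dist p.1 x).card ≤
      if x = p.1 then 0 else 1 := by
    intro x hx
    split_ifs with h
    · rw [Nat.le_zero, Finset.card_eq_zero, Finset.filter_eq_empty_iff]
      rintro y - ⟨-, h2⟩
      rw [h, dist_self] at h2
      omega
    · rw [Finset.card_le_one]
      intro y hy z hz
      rw [Finset.mem_filter, hN] at hy hz
      exact par_unique hF hy.1 hz.1 (hKr x hx) hy.2.2 hz.2.2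
  have hone : ∑ x ∈ K, (if x = p.1 then 0 else 1) + 1 = K.card := by
    have h1 : ∑ x ∈ K, ((if x = p.1 then 0 else 1) + (if x = p.1 then 1 else 0)) = K.card := by
      rw [Finset.card_eq_sum_ones]
      apply Finset.sum_congr rfl
      intro x _
      split_ifs <;> rfl
    rw [Finset.sum_add_distrib, Finset.sum_ite_eq' K p.1, if_pos hpK] at h1
    exact h1
  have hI1 : ∑ x ∈ K, ((N x).filter fun y => y ∈ K ∧ F.dist p.1 y < F.dist p.1 x).card + 1 ≤
      K.card := by
    rw [← hone]
    exact Nat.add_le_add_right (Finset.sum_le_sum hdown) 1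
  have hI2 : ∑ x ∈ K, ((N x).filter fun y => y ∈ K ∧ F.dist p.1 x < F.dist p.1 y).card =
      ∑ x ∈ K, ((N x).filter fun y => y ∈ K ∧ F.dist p.1 y < F.dist p.1 x).card := by
    simp only [Finset.card_eq_sum_ones]
    apply Finset.sum_comm'
    intro x y
    simp only [Finset.mem_filter, hN]
    constructor
    · rintro ⟨h1, h2, h3, h4⟩
      exact ⟨⟨h2.symm, h1, h4⟩, h3⟩
    · rintro ⟨⟨h1, h2, h3⟩, h4⟩
      exact ⟨h2, h1.symm, h4, h3⟩
  have hsplit : ∀ x ∈ K, (N x).card =
      ((N x).filter fun y => y ∈ K ∧ F.dist p.1 y < F.dist p.1 x).card +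
      ((N x).filter fun y => y ∈ K ∧ F.dist p.1 x < F.dist p.1 y).card +
      ((N x).filter fun y => y ∉ K).card := by
    intro x hx
    rw [Finset.card_filter, Finset.card_filter, Finset.card_filter, Finset.card_eq_sum_ones,
      ← Finset.sum_add_distrib, ← Finset.sum_add_distrib]
    apply Finset.sum_congr rfl
    intro y hy
    have h1 := hF.dist_ne_of_adj ((hN x y).1 hy) (hKr x hx)
    by_cases hyK : y ∈ K
    · rcases lt_or_gt_of_ne h1 with h2 | h2
      · simp [hyK, h2, not_lt.2 h2.le]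
      · simp [hyK, h2, not_lt.2 h2.le]
    · simp [hyK]
  -- the points of degree three
  have hT : 1600 ≤ (K.filter fun x => 3 ≤ (N x).card).card := by
    choose f hf1 hf2 hf3 using exists_three' hF hdeg2 hthree p.1
    have h1 : (Finset.range 1600).card ≤ (K.filter fun x => 3 ≤ (N x).card).card := by
      apply Finset.card_le_card_of_injOn f
      · intro i hi
        rw [Finset.coe_range, Set.mem_Iio] at hi
        rw [Finset.coe_filter, Set.mem_ofPred_eq, ← hNc, hK]
        refine ⟨hball p.1 (f i) hp (hf1 i).symm ?_, hf2 i⟩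
        have := hf3 i
        rw [dist_comm]
        omega
      · intro i _ j _ hij
        rw [← hf3 i, ← hf3 j, hij]
    rwa [Finset.card_range] at h1
  have hsum : 2 * K.card + (K.filter fun x => 3 ≤ (N x).card).card ≤ ∑ x ∈ K, (N x).card := by
    rw [Finset.card_filter, mul_comm, ← smul_eq_mul, ← Finset.sum_const, ← Finset.sum_add_distrib]
    apply Finset.sum_le_sum
    intro x _
    have := hdeg2 x
    rw [hNc] at this
    split_ifs <;> omega
  have htot : ∑ x ∈ K, (N x).card =
      ∑ x ∈ K, ((N x).filter fun y => y ∈ K ∧ F.dist p.1 y < F.dist p.1 x).card +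
      ∑ x ∈ K, ((N x).filter fun y => y ∈ K ∧ F.dist p.1 x < F.dist p.1 y).card +
      ∑ x ∈ K, ((N x).filter fun y => y ∉ K).card := by
    rw [← Finset.sum_add_distrib, ← Finset.sum_add_distrib]
    exact Finset.sum_congr rfl hsplit
  -- the edges leaving the cell
  obtain ⟨O, hO⟩ : ∃ O : Finset (Σ _ : V, V), O = K.sigma fun x => (N x).filter fun y => y ∉ K :=
    ⟨_, rfl⟩
  have hOc : O.card = ∑ x ∈ K, ((N x).filter fun y => y ∉ K).card := by
    rw [hO, Finset.card_sigma]
  have hOm : ∀ s : (Σ _ : V, V), s ∈ O → a s.1 = p.1 ∧ F.Adj s.1 s.2 ∧ a s.2 ≠ p.1 := by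
    intro s hs
    rw [hO, Finset.mem_sigma, Finset.mem_filter, hN, hK, hK] at hs
    exact hs
  have hinj : (O.image fun s => a s.2).card = O.card := by
    apply Finset.card_image_of_injOn
    intro s hs t ht hst
    obtain ⟨h1, h2, h3⟩ := hOm s hs
    obtain ⟨h4, h5, h6⟩ := hOm t ht
    obtain ⟨h7, h8⟩ := huniq s.1 s.2 t.1 t.2 h2 h5 (h1.trans h4.symm) hst
      (by rw [h1]; exact fun h => h3 h.symm)
    obtain ⟨s1, s2⟩ := s
    obtain ⟨t1, t2⟩ := t
    simp only at h7 h8
    rw [h7, h8]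
  have hsub : ((O.image fun s => a s.2 : Finset V) : Set V) ⊆
      Subtype.val '' (Cells F a).neighborSet p := by
    intro q hq
    rw [Finset.coe_image] at hq
    obtain ⟨s, hs, rfl⟩ := hq
    obtain ⟨h1, h2, h3⟩ := hOm s hs
    refine ⟨⟨a s.2, ha _⟩, ?_, rfl⟩
    rw [mem_neighborSet]
    refine ⟨fun h => h3 ?_, s.1, s.2, h2, h1, rfl⟩
    rw [h]
  have hfinal : 1600 ≤ (O.image fun s => a s.2).card := by
    rw [hinj, hOc]
    omega
  calc (1600 : ℕ∞) ≤ ((O.image fun s => a s.2).card : ℕ∞) := by exact_mod_cast hfinal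
    _ = ((O.image fun s => a s.2 : Finset V) : Set V).encard :=
      (Set.encard_coe_eq_coe_finsetCard _).symm
    _ ≤ (Subtype.val '' (Cells F a).neighborSet p).encard := Set.encard_le_encard hsub
    _ = ((Cells F a).neighborSet p).encard := Subtype.val_injective.encard_image _

end H31.UF.Deg
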