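import Pool.Agent.H31.UF.Stm4

/-!
# A closed core meeting every component extends

Adapted from the library module `Helper611.UF.Fin` (there for 3-regular graphs).
-/

set_option autoImplicit false

namespace H31.UF.Fin

open MeasureTheory Set Pool.Agent.Helper611.UF Pool.Agent.Helper611.UF.Fin

section

variable {V : Type} {G : SimpleGraph V} {Y : Set V} {c : V → Bool} {O : SimpleGraph V}
    {z0 u1 : V} {f : V → Bool}

/-- all points of the component are fine -/
theorem two' (hPATH : S_PATH) (D : Dat G Y c O z0 u1 f)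
    (h3 : ∀ x, 3 ≤ (G.neighborSet x).ncard) {x : V} (hx : O.Reachable z0 x) :
    Two G univ f x := by
  obtain ⟨a, b, d, hab, had, hbd, ha, hb, hd⟩ := three (h3 x)
  by_cases h1 : f a = f x
  · refine ⟨b, d, hbd, hb, hd, mem_univ _, mem_univ _, fun h => ?_, fun h => ?_⟩
    · exact D.F3 hPATH hx ha hb hab h1 h
    · exact D.F3 hPATH hx ha hd had h1 h
  · by_cases h2 : f b = f x
    · refine ⟨a, d, had, ha, hd, mem_univ _, mem_univ _, h1, fun h => ?_⟩
      exact D.F3 hPATH hx hb hd hbd h2 h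
    · exact ⟨a, b, hab, ha, hb, mem_univ _, mem_univ _, h1, h2⟩

end

theorem main (hPATH : S_PATH) (hENUM : S_ENUM) (hEX : S_EX) (hSEL : S_SEL) (hREACH : S_REACH) :
    T_FIN := by
  classical
  intro V _ _ G Δ hG h3 Y c hY hc hcore hcl hmeet
  obtain ⟨w, hw, -⟩ := hENUM V G Δ hG
  obtain ⟨O, hO⟩ : ∃ O : SimpleGraph V, ∀ x y, O.Adj x y ↔ G.Adj x y ∧ x ∉ Y ∧ y ∉ Y :=
    ⟨{ Adj := fun x y => G.Adj x y ∧ x ∉ Y ∧ y ∉ Y
       symm := ⟨fun _ _ h => ⟨h.1.symm, h.2.2, h.2.1⟩⟩
       loopless := ⟨fun _ h => h.1.ne rfl⟩ }, fun _ _ => Iff.rfl⟩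
  have hOG : O ≤ G := fun x y h => ((hO x y).1 h).1
  have hOadj : MeasurableSet {p : V × V | O.Adj p.1 p.2} := by
    have h1 : {p : V × V | O.Adj p.1 p.2} = {p : V × V | G.Adj p.1 p.2} ∩
        (Prod.fst ⁻¹' Yᶜ ∩ Prod.snd ⁻¹' Yᶜ) := by
      ext p
      exact hO p.1 p.2
    rw [h1]
    exact hG.adj.inter ((measurable_fst hY.compl).inter (measurable_snd hY.compl))
  have hGeq : Equivalence G.Reachable := G.reachable_is_equivalence
  have hOE : ∀ x y, O.Adj x y → G.Reachable x y := fun x y h =>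
    SimpleGraph.Adj.reachable (hOG h)
  have hOR : Bor2 O.Reachable := by
    refine (hREACH V G.Reachable w hGeq hw (V × V) (fun _ => O) ?_ (fun _ => hOE) Prod.fst
      Prod.snd measurable_fst measurable_snd).1
    exact measurable_snd hOadj
  -- boundary vertices
  have hB : MeasurableSet {z | ∃ u, G.Adj z u ∧ u ∈ Y} := by
    have h1 := (hEX V G.Reachable w hw V id measurable_id (fun z u => G.Adj z u ∧ u ∈ Y)
      (hG.adj.inter (measurable_snd hY))).1
    have h2 : {z | ∃ u, G.Adj z u ∧ u ∈ Y} =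
        {z | ∃ y, G.Reachable (id z) y ∧ (G.Adj z y ∧ y ∈ Y)} := by
      ext z
      constructor
      · rintro ⟨u, h, hu⟩
        exact ⟨u, SimpleGraph.Adj.reachable h, h, hu⟩
      · rintro ⟨u, -, h, hu⟩
        exact ⟨u, h, hu⟩
    rw [h2]
    exact h1
  -- finiteness
  have hfin : ∀ x, {z | x ∉ Y ∧ O.Reachable x z ∧ ∃ u, G.Adj z u ∧ u ∈ Y}.Finite := by
    intro x
    by_cases hne : ∃ z, x ∉ Y ∧ O.Reachable x z ∧ ∃ u, G.Adj z u ∧ u ∈ Y
    · obtain ⟨z0, hxY, hxz, u1, hzu, hu1⟩ := hne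
      obtain ⟨f, hf⟩ : ∃ f : V → Bool, ∀ y, f y = if y ∈ Y then c y else
        xor (!(c u1)) (decide (Odd (O.dist z0 y))) := ⟨_, fun _ => rfl⟩
      have D : Dat G Y c O z0 u1 f := by
        have hz := notMem_of_reach hO hxz hxY
        refine ⟨hO, hcl, hz, hu1, hzu, fun y hy => by rw [hf, if_pos hy], fun y hy => ?_⟩
        rw [hf, if_neg (notMem_of_reach hO hy hz)]
      by_cases hne2 : ∃ z2, (O.Reachable x z2 ∧ ∃ u, G.Adj z2 u ∧ u ∈ Y) ∧ z2 ≠ z0
      · obtain ⟨z2, ⟨hxz2, u2, hzu2, hu2⟩, hn2⟩ := hne2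
        refine (Set.toFinite {z0, z2}).subset ?_
        rintro z ⟨-, hxz', u, hzu', hu⟩
        by_cases hz : z = z0
        · exact Or.inl hz
        · right
          exact (D.F2 hPATH (hxz.symm.trans hxz') (hxz.symm.trans hxz2) hu hu2 hzu' hzu2
            (fun h => hz h.1) (fun h => hn2 h.1)).1
      · push Not at hne2
        refine (Set.finite_singleton z0).subset ?_
        rintro z ⟨-, hxz', hz⟩
        exact hne2 z ⟨hxz', hz⟩
    · push Not at hne
      refine Set.finite_empty.subset ?_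
      rintro z ⟨h1, h2, u, h4, h5⟩
      exact (hne z h1 h2 u h4 h5).elim
  have hr := measurable_embeddingReal V
  have hri := (measurableEmbedding_embeddingReal V).injective
  obtain ⟨x0, hx0m, hx0, -⟩ := hSEL V G.Reachable w hw (embeddingReal V) hr hri
    (fun x z => x ∉ Y ∧ O.Reachable x z ∧ ∃ u, G.Adj z u ∧ u ∈ Y)
    ((measurable_fst hY.compl).inter (hOR.inter (measurable_snd hB)))
    (fun x y h => h.2.1.mono hOG) hfin
  obtain ⟨uu, huum, huu, -⟩ := hSEL V G.Reachable w hw (embeddingReal V) hr hri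
    (fun z u => G.Adj z u ∧ u ∈ Y) (hG.adj.inter (measurable_snd hY))
    (fun x y h => SimpleGraph.Adj.reachable h.1)
    (fun x => (Set.finite_of_ncard_pos (by have := h3 x; omega) :
      (G.neighborSet x).Finite).subset fun u h => h.1)
  -- the distance to the chosen vertex
  have hR := hREACH V G.Reachable w hGeq hw V (fun _ => O) (measurable_snd hOadj) (fun _ => hOE)
    x0 id hx0m measurable_id
  obtain ⟨A, hA⟩ : ∃ A : Set V, A = {x | O.Reachable (x0 x) x ∧ Odd (O.dist (x0 x) x)} := ⟨_, rfl⟩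
  have hAm : MeasurableSet A := by
    have h1 : A = ⋃ k : ℕ, ({x | O.Reachable (x0 x) (id x) ∧ O.dist (x0 x) (id x) ≤ 2 * k + 1} \
        {x | O.Reachable (x0 x) (id x) ∧ O.dist (x0 x) (id x) ≤ 2 * k}) := by
      ext x
      rw [hA]
      simp only [mem_ofPred_eq, mem_iUnion, mem_sdiff, id]
      constructor
      · rintro ⟨h, k, hk⟩
        exact ⟨k, ⟨h, hk.le⟩, fun h' => by omega⟩
      · rintro ⟨k, ⟨h, h1⟩, h2⟩
        refine ⟨h, k, ?_⟩
        by_contra h3
        exact h2 ⟨h, by omega⟩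
    rw [h1]
    exact MeasurableSet.iUnion fun k => (hR.2 _).diff (hR.2 _)
  have hAd : Measurable fun x => decide (x ∈ A) := by
    refine measurable_to_bool ?_
    have : (fun x => decide (x ∈ A)) ⁻¹' {true} = A := by
      ext x
      simp
    rw [this]
    exact hAm
  obtain ⟨c', hc'⟩ : ∃ c' : V → Bool, ∀ x, c' x = if x ∈ Y then c x else
    xor (!(c (uu (x0 x)))) (decide (x ∈ A)) := ⟨_, fun _ => rfl⟩
  have hc'm : Measurable c' := by
    obtain ⟨F, hF⟩ : ∃ F : Bool × Bool → Bool, ∀ a b, F (a, b) = xor (!a) b :=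
      ⟨fun p => xor (!p.1) p.2, fun _ _ => rfl⟩
    have h1 : c' = fun x => if x ∈ Y then c x else
      (F ∘ fun x => (c (uu (x0 x)), decide (x ∈ A))) x := by
      funext x
      rw [hc', Function.comp_apply, hF]
    rw [h1]
    refine Measurable.ite hY hc ?_
    exact (measurable_of_countable F).comp ((hc.comp (huum.comp hx0m)).prodMk hAd)
  refine ⟨c', hc'm, fun x => ?_⟩
  by_cases hx : x ∈ Y
  · obtain ⟨y, z, h1, h2, h3, h4, h5, h6, h7⟩ := hcore x hx
    exact ⟨y, z, h1, h2, h3, mem_univ _, mem_univ _,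
      by rw [hc' y, if_pos h4, hc' x, if_pos hx]; exact h6,
      by rw [hc' z, if_pos h5, hc' x, if_pos hx]; exact h7⟩
  · -- the chosen vertex of the component of `x`
    have hex : ∀ y, y ∉ Y → ∃ z, y ∉ Y ∧ O.Reachable y z ∧ ∃ u, G.Adj z u ∧ u ∈ Y := by
      intro y hy
      obtain ⟨y', hy', hyy'⟩ := hmeet y
      obtain ⟨z, hz, hu⟩ := exists_bd hPATH hO hyy' hy hy'
      exact ⟨z, hy, hz, hu⟩
    obtain ⟨⟨-, hrx, hbx⟩, hminx⟩ := hx0 x (hex x hx)
    obtain ⟨hux, -⟩ := huu (x0 x) hbx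
    have hzY := notMem_of_reach hO hrx hx
    have hinv : ∀ y, O.Reachable (x0 x) y → x0 y = x0 x := by
      intro y hy
      have hyY := notMem_of_reach hO hy hzY
      obtain ⟨⟨-, hry, hby⟩, hminy⟩ := hx0 y (hex y hyY)
      apply hri
      apply le_antisymm
      · exact hminy (x0 x) ⟨hyY, hy.symm, hbx⟩
      · exact hminx (x0 y) ⟨hx, (hrx.trans hy).trans hry, hby⟩
    have D : Dat G Y c O (x0 x) (uu (x0 x)) c' := by
      refine ⟨hO, hcl, hzY, hux.2, hux.1, fun y hy => by rw [hc', if_pos hy], fun y hy => ?_⟩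
      have hyY := notMem_of_reach hO hy hzY
      rw [hc', if_neg hyY, hinv y hy]
      congr 1
      rw [decide_eq_decide, hA, mem_ofPred_eq, hinv y hy]
      exact ⟨fun h => h.2, fun h => ⟨hy, h⟩⟩
    exact two' hPATH D h3 hrx.symm

end H31.UF.Fin
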