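import Pool.Agent.H31.UF.Stm4

/-!
# The forest

A Borel graph of bounded degree with all degrees at least three and without finite cores is a
cactus of odd cycles: the darts of a cycle are a component of the graph `DG` of the darts. One
edge is removed from every cycle.
-/

set_option autoImplicit false

namespace H31.UF.For4

open MeasureTheory Set Pool.Agent.Helper611.UF Pool.Agent.Helper611.UF.For

section comb

variable {V : Type} (G : SimpleGraph V)

/-- three neighbours of `x` which are joined off `x`: there is a finite core -/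
theorem no_three (hPATH : S_PATH)
    (hS : ∀ S : Set V, S.Finite → S.Nonempty → ∀ c : V → Bool, ¬ Core G S c) {x y1 y2 y3 : V}
    (a1 : G.Adj x y1) (a2 : G.Adj x y2) (a3 : G.Adj x y3) (h12 : y1 ≠ y2) (h13 : y1 ≠ y3)
    (h23 : y2 ≠ y3) (q12 : (Off G x).Reachable y1 y2) (q13 : (Off G x).Reachable y1 y3) :
    False := by
  classical
  let c : V → Bool := fun z => decide (Even ((Off G x).dist y1 z))
  have alt : ∀ z, (Off G x).Reachable y1 z → (Alt (Off G x) c).Reachable y1 z := by
    intro z hz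
    obtain ⟨_, v, h0, hn, hadj, hd⟩ := hPATH V (Off G x) y1 z hz
    have h1 : ∀ i < (Off G x).dist y1 z, (Alt (Off G x) c).Adj (v i) (v (i + 1)) := by
      intro i hi
      refine ⟨hadj i hi, ?_⟩
      show decide (Even ((Off G x).dist y1 (v i))) ≠ decide (Even ((Off G x).dist y1 (v (i + 1))))
      rw [(hd i (by omega)).2, (hd (i + 1) (by omega)).2]
      intro he
      have : Even i ↔ Even (i + 1) := by
        constructor
        · intro h; rw [decide_eq_true h] at he; exact of_decide_eq_true he.symm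
        · intro h; rw [decide_eq_true h] at he; exact of_decide_eq_true he
      rw [Nat.even_add_one] at this
      tauto
    have h2 := seq_reach h1 (Nat.zero_le _) le_rfl
    rwa [h0, hn] at h2
  have b2 := alt y2 q12
  have b3 := alt y3 q13
  have hpig : c y1 = c y2 ∨ c y1 = c y3 ∨ c y2 = c y3 := by
    cases c y1 <;> cases c y2 <;> cases c y3 <;> simp
  rcases hpig with h | h | h
  · exact core_of_path G hPATH hS a1 a2 h12 h b2
  · exact core_of_path G hPATH hS a1 a3 h13 h b3
  · exact core_of_path G hPATH hS a2 a3 h23 h (b2.symm.trans b3)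

/-- `y` and `z` are the neighbours of `x` on a cycle -/
def PT (x y z : V) : Prop := G.Adj x y ∧ G.Adj x z ∧ y ≠ z ∧ (Off G x).Reachable y z

variable {G}

theorem PT.symm {x y z : V} (h : PT G x y z) : PT G x z y :=
  ⟨h.2.1, h.1, h.2.2.1.symm, h.2.2.2.symm⟩

theorem PT.ng {x y z : V} (h : PT G x y z) : (NG G).Adj x z := by
  refine ⟨h.2.1, ?_⟩
  have h1 : (G.deleteEdges {s(x, z)}).Adj x y := by
    rw [SimpleGraph.deleteEdges_adj]
    refine ⟨h.1, ?_⟩
    intro he
    rw [mem_singleton_iff, Sym2.eq_iff] at he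
    rcases he with ⟨-, he⟩ | ⟨-, he⟩
    · exact h.2.2.1 he
    · exact h.1.ne he.symm
  refine h1.reachable.trans (h.2.2.2.mono ?_)
  intro a b hab
  rw [SimpleGraph.deleteEdges_adj]
  refine ⟨hab.1, ?_⟩
  intro he
  rw [mem_singleton_iff, Sym2.eq_iff] at he
  rcases he with ⟨he, -⟩ | ⟨-, he⟩
  · exact hab.2.1 he
  · exact hab.2.2 he

theorem partner (hPATH : S_PATH) {x y : V} (h : (NG G).Adj x y) : ∃ z, PT G x y z := by
  obtain ⟨z, hz1, hz2, hz3⟩ := Off_reach G hPATH h
  exact ⟨z, h.1, hz2, hz1.symm, hz3.symm⟩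

theorem PT_uniq (hPATH : S_PATH)
    (hS : ∀ S : Set V, S.Finite → S.Nonempty → ∀ c : V → Bool, ¬ Core G S c) {x y z z' : V}
    (h : PT G x y z) (h' : PT G x y z') : z = z' := by
  by_contra hne
  exact no_three G hPATH hS h.1 h.2.1 h'.2.1 h.2.2.1 h'.2.2.1 hne h.2.2.2 h'.2.2.2

variable (G)

/-- the graph of the darts -/
def DG : SimpleGraph (V × V) where
  Adj p q := (G.Adj p.1 p.2 ∧ q.1 = p.2 ∧ q.2 = p.1) ∨ (q.1 = p.1 ∧ PT G p.1 p.2 q.2)
  symm := ⟨by
    rintro ⟨a, b⟩ ⟨a', b'⟩ (⟨h1, h2, h3⟩ | ⟨h1, h2⟩)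
    · simp only at h1 h2 h3
      subst h2 h3
      exact Or.inl ⟨h1.symm, rfl, rfl⟩
    · simp only at h1 h2
      subst h1
      exact Or.inr ⟨rfl, h2.symm⟩⟩
  loopless := ⟨by
    rintro ⟨a, b⟩ (⟨h1, h2, h3⟩ | ⟨h1, h2⟩)
    · exact h1.ne h2
    · exact h2.2.2.1 rfl⟩

variable (r : V × V → ℝ)

/-- the edge removed from a cycle -/
def Rm (x y : V) : Prop :=
  (NG G).Adj x y ∧ ∀ q, (DG G).Reachable (x, y) q → r (x, y) ≤ r q

/-- removed edges -/
def RR (x y : V) : Prop := Rm G r x y ∨ Rm G r y x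

variable {G r}

theorem RR.symm {x y : V} (h : RR G r x y) : RR G r y x := Or.symm h

theorem RR.ng {x y : V} (h : RR G r x y) : (NG G).Adj x y := by
  rcases h with h | h
  · exact h.1
  · exact h.1.symm

theorem swap_reach {x y : V} (h : G.Adj x y) : (DG G).Reachable (x, y) (y, x) :=
  SimpleGraph.Adj.reachable (Or.inl ⟨h, rfl, rfl⟩)

theorem RR.dart {x y : V} (h : RR G r x y) : ∃ d : V × V, (DG G).Reachable (x, y) d ∧
    s(d.1, d.2) = s(x, y) ∧ ∀ q, (DG G).Reachable d q → r d ≤ r q := by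
  rcases h with h | h
  · exact ⟨(x, y), SimpleGraph.Reachable.refl _, rfl, h.2⟩
  · exact ⟨(y, x), swap_reach h.1.1.symm, Sym2.eq_swap, h.2⟩

theorem RR_uniq (hr : Function.Injective r) {a b c d : V} (h : RR G r a b) (h' : RR G r c d)
    (hac : (DG G).Reachable (a, b) (c, d)) : s(a, b) = s(c, d) := by
  obtain ⟨e, h1, h2, h3⟩ := h.dart
  obtain ⟨e', h1', h2', h3'⟩ := h'.dart
  have h4 : (DG G).Reachable e e' := (h1.symm.trans hac).trans h1'
  have h5 : e = e' := hr (le_antisymm (h3 _ h4) (h3' _ h4.symm))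
  rw [← h2, ← h2', h5]

variable (G r)

/-- the forest -/
def FF : SimpleGraph V where
  Adj x y := G.Adj x y ∧ ¬ RR G r x y
  symm := ⟨fun _ _ h => ⟨h.1.symm, fun h' => h.2 h'.symm⟩⟩
  loopless := ⟨fun _ h => G.loopless.irrefl _ h.1⟩

theorem FF_le : FF G r ≤ G := fun _ _ h => h.1

variable {G r}

theorem FF_acyclic (hPATH : S_PATH)
    (hS : ∀ S : Set V, S.Finite → S.Nonempty → ∀ c : V → Bool, ¬ Core G S c) :
    (FF G r).IsAcyclic := by
  classical
  intro v p hp
  obtain ⟨H, hH⟩ : ∃ H : SimpleGraph V, ∀ a b, H.Adj a b ↔ s(a, b) ∈ p.edges :=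
    ⟨{ Adj := fun a b => s(a, b) ∈ p.edges
       symm := ⟨fun a b h => by rwa [Sym2.eq_swap]⟩
       loopless := ⟨fun a h => (p.adj_of_mem_edges h).ne rfl⟩ }, fun _ _ => Iff.rfl⟩
  have hHG : H ≤ G := fun a b h => (FF_le G r) (p.adj_of_mem_edges ((hH a b).1 h))
  have hmem : ∀ e, e ∈ p.edges → e ∈ H.edgeSet := by
    intro e
    induction e using Sym2.ind with
    | _ a b => exact fun he => (hH a b).2 he
  have hNH : ∀ a b, s(a, b) ∈ p.edges → (NG H).Adj a b := by
    intro a b hab
    refine (NG_iff H).mpr ⟨v, p.transfer H hmem, hp.transfer hmem, ?_⟩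
    rw [SimpleGraph.Walk.edges_transfer]
    exact hab
  have hpart : ∀ a b, s(a, b) ∈ p.edges → ∃ z, s(a, z) ∈ p.edges ∧ PT G a b z := by
    intro a b hab
    obtain ⟨z, hz1, hz2, hz3⟩ := Off_reach H hPATH (hNH a b hab)
    refine ⟨z, (hH a z).1 hz2, hHG ((hH a b).2 hab), hHG hz2, hz1.symm, hz3.symm.mono ?_⟩
    intro c d hcd
    exact ⟨hHG hcd.1, hcd.2⟩
  have hclosed : ∀ q q' : V × V, s(q.1, q.2) ∈ p.edges → (DG G).Adj q q' →
      s(q'.1, q'.2) ∈ p.edges := by
    rintro ⟨a, b⟩ ⟨a', b'⟩ hq (⟨h1, h2, h3⟩ | ⟨h1, h2⟩)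
    · simp only at h1 h2 h3 hq ⊢
      rw [h2, h3, Sym2.eq_swap]
      exact hq
    · simp only at h1 h2 hq ⊢
      obtain ⟨z, hz1, hz2⟩ := hpart a b hq
      rw [h1, ← PT_uniq hPATH hS hz2 h2]
      exact hz1
  have hcomp : ∀ q q' : V × V, (DG G).Reachable q q' → s(q.1, q.2) ∈ p.edges →
      s(q'.1, q'.2) ∈ p.edges := by
    rintro q q' ⟨w⟩
    induction w with
    | nil => exact fun h => h
    | cons h _ ih => exact fun h' => ih (hclosed _ _ h' h)
  obtain ⟨a0, -, -, ha0, -⟩ := cyc_two hp p.start_mem_support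
  obtain ⟨d, hd1, hd2⟩ := Finset.exists_min_image
    ((p.support.toFinset ×ˢ p.support.toFinset).filter fun q : V × V => s(q.1, q.2) ∈ p.edges) r
    ⟨(v, a0), by
      rw [Finset.mem_filter, Finset.mem_product, List.mem_toFinset, List.mem_toFinset]
      exact ⟨⟨p.start_mem_support, p.snd_mem_support_of_mem_edges ha0⟩, ha0⟩⟩
  rw [Finset.mem_filter] at hd1
  have hd3 := hd1.2
  have hN : (NG G).Adj d.1 d.2 := by
    refine (NG_iff G).mpr ⟨v, p.mapLe (FF_le G r), hp.mapLe (FF_le G r), ?_⟩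
    rw [SimpleGraph.Walk.edges_mapLe_eq_edges]
    exact hd3
  apply (p.adj_of_mem_edges hd3).2
  left
  refine ⟨hN, fun q hq => ?_⟩
  have h1 := hcomp _ _ hq hd3
  apply hd2 q
  rw [Finset.mem_filter, Finset.mem_product, List.mem_toFinset, List.mem_toFinset]
  exact ⟨⟨p.fst_mem_support_of_mem_edges h1, p.snd_mem_support_of_mem_edges h1⟩, h1⟩

/-- the partner of a removed edge is not removed -/
theorem RR_partner (hr : Function.Injective r) {x y z : V} (h : RR G r x y) (hp : PT G x y z) :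
    ¬ RR G r x z := by
  intro h'
  have h1 : (DG G).Adj (x, y) (x, z) := Or.inr ⟨rfl, hp⟩
  have h2 := RR_uniq hr h h' h1.reachable
  rw [Sym2.eq_iff] at h2
  rcases h2 with ⟨-, h2⟩ | ⟨h2, -⟩
  · exact hp.2.2.1 h2
  · exact hp.2.1.ne h2

theorem count (hPATH : S_PATH) (hr : Function.Injective r)
    (hS : ∀ S : Set V, S.Finite → S.Nonempty → ∀ c : V → Bool, ¬ Core G S c) (x : V)
    (hfin : (G.neighborSet x).Finite) (T : Set V) (hT : T ⊆ (FF G r).neighborSet x)
    (hTp : ∀ y, RR G r x y → ∀ z ∈ T, ¬ PT G x y z) :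
    {y | RR G r x y}.ncard + T.ncard ≤ ((FF G r).neighborSet x).ncard ∧
    (G.neighborSet x).ncard = {y | RR G r x y}.ncard + ((FF G r).neighborSet x).ncard := by
  classical
  have hfR : {y | RR G r x y}.Finite := hfin.subset fun y hy => hy.ng.1
  have hfF : ((FF G r).neighborSet x).Finite := hfin.subset fun y hy => hy.1
  constructor
  · have hch : ∀ y, RR G r x y → ∃ z, PT G x y z := fun y hy => partner hPATH hy.ng
    choose! σ hσ using hch
    have hinj : Set.InjOn σ {y | RR G r x y} := by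
      intro y hy y' hy' h
      have h1 := hσ y hy
      have h2 := hσ y' hy'
      rw [← h] at h2
      exact PT_uniq hPATH hS h1.symm h2.symm
    have hdis : Disjoint (σ '' {y | RR G r x y}) T := by
      rw [Set.disjoint_left]
      rintro _ ⟨y, hy, rfl⟩ hz
      exact hTp y hy _ hz (hσ y hy)
    rw [← hinj.ncard_image, ← Set.ncard_union_eq hdis (hfR.image _) (hfF.subset hT)]
    apply Set.ncard_le_ncard _ hfF
    rintro z (⟨y, hy, rfl⟩ | hz)
    · exact ⟨(hσ y hy).2.1, RR_partner hr hy (hσ y hy)⟩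
    · exact hT hz
  · have hdis : Disjoint {y | RR G r x y} ((FF G r).neighborSet x) := by
      rw [Set.disjoint_left]
      intro y hy hy'
      exact hy'.2 hy
    rw [← Set.ncard_union_eq hdis hfR hfF]
    congr 1
    ext y
    simp only [mem_union, mem_ofPred_eq]
    constructor
    · intro hy
      by_cases h : RR G r x y
      · exact Or.inl h
      · exact Or.inr ⟨hy, h⟩
    · rintro (h | h)
      · exact h.ng.1
      · exact h.1

theorem FF_deg (hPATH : S_PATH) (hr : Function.Injective r)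
    (hS : ∀ S : Set V, S.Finite → S.Nonempty → ∀ c : V → Bool, ¬ Core G S c)
    (h3 : ∀ x, 3 ≤ (G.neighborSet x).ncard) (x : V) :
    2 ≤ ((FF G r).neighborSet x).ncard ∧ (3 ≤ ((FF G r).neighborSet x).ncard ∨
      ∃ y, (FF G r).Adj x y ∧ 3 ≤ ((FF G r).neighborSet y).ncard) := by
  have hfin : ∀ x, (G.neighborSet x).Finite := fun x =>
    Set.finite_of_ncard_pos (by have := h3 x; omega)
  have h0 := count hPATH hr hS x (hfin x) ∅ (Set.empty_subset _) (fun _ _ _ h => h.elim)
  rw [Set.ncard_empty] at h0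
  refine ⟨by have := h3 x; omega, ?_⟩
  by_cases hR : ∃ y, RR G r x y
  · right
    obtain ⟨y, hy⟩ := hR
    obtain ⟨z, hz⟩ := partner hPATH hy.ng
    have hxz := RR_partner hr hy hz
    refine ⟨z, ⟨hz.2.1, hxz⟩, ?_⟩
    obtain ⟨x', hx'⟩ := partner hPATH hz.ng.symm
    -- the edge `z x'` is on the same cycle
    have hreach : (DG G).Reachable (x, y) (z, x') := by
      have e1 : (DG G).Adj (x, y) (x, z) := Or.inr ⟨rfl, hz⟩
      have e2 : (DG G).Adj (x, z) (z, x) := Or.inl ⟨hz.2.1, rfl, rfl⟩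
      have e3 : (DG G).Adj (z, x) (z, x') := Or.inr ⟨rfl, hx'⟩
      exact (e1.reachable.trans e2.reachable).trans e3.reachable
    have hzx' : ¬ RR G r z x' := by
      intro h
      have h2 := RR_uniq hr hy h hreach
      rw [Sym2.eq_iff] at h2
      rcases h2 with ⟨h2, -⟩ | ⟨-, h2⟩
      · exact hz.2.1.ne h2
      · exact hz.2.2.1 h2
    have hzx : ¬ RR G r z x := fun h => hxz h.symm
    have hc := count hPATH hr hS z (hfin z) {x, x'} (by
      rintro t (rfl | rfl)
      · exact ⟨hz.2.1.symm, hzx⟩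
      · exact ⟨hx'.2.1, hzx'⟩) (by
      rintro t ht _ (rfl | rfl) hp
      · have := PT_uniq hPATH hS hp.symm hx'
        rw [this] at ht
        exact hzx' ht
      · have := PT_uniq hPATH hS hp.symm hx'.symm
        rw [this] at ht
        exact hzx ht)
    rw [Set.ncard_pair hx'.2.2.1] at hc
    have := h3 z
    omega
  · left
    have h1 : {y | RR G r x y} = ∅ := by
      ext y
      simp only [mem_ofPred_eq, mem_empty_iff_false, iff_false]
      exact fun h => hR ⟨y, h⟩
    rw [h1, Set.ncard_empty] at h0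
    have := h3 x
    omega

end comb

/-- FOR -/
theorem main (hENUM : S_ENUM) (hEX : S_EX) (hREACH : S_REACH) (hPATH : S_PATH) : T_FOR := by
  intro V _ _ G Δ hG h3 hS
  obtain ⟨w, hw, _⟩ := hENUM V G Δ hG
  have hE : Equivalence G.Reachable := ⟨fun _ => SimpleGraph.Reachable.refl _,
    fun h => h.symm, fun h h' => h.trans h'⟩
  have hr := (measurableEmbedding_embeddingReal (V × V)).injective
  have hrm := measurable_embeddingReal (V × V)
  have heq : ∀ {Z : Type} [MeasurableSpace Z] {f g : Z → V}, Measurable f → Measurable g →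
      MeasurableSet {z | f z = g z} := by
    intro Z _ f g hf hg
    have h1 : {z | f z = g z} = {z | embeddingReal V (f z) = embeddingReal V (g z)} := by
      ext z
      constructor
      · intro h
        show embeddingReal V (f z) = embeddingReal V (g z)
        rw [show f z = g z from h]
      · intro h
        exact (measurableEmbedding_embeddingReal V).injective h
    rw [h1]
    exact measurableSet_eq_fun ((measurable_embeddingReal V).comp hf)
      ((measurable_embeddingReal V).comp hg)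
  -- the graph of the non-bridges is Borel
  have hN1 : MeasurableSet {p : V × V | (G.deleteEdges {s(p.1, p.2)}).Reachable p.1 p.2} := by
    refine (hREACH V G.Reachable w hE hw (V × V) (fun p => G.deleteEdges {s(p.1, p.2)}) ?_ ?_
      Prod.fst Prod.snd measurable_fst measurable_snd).1
    · have h1 : {p : (V × V) × V × V | (G.deleteEdges {s(p.1.1, p.1.2)}).Adj p.2.1 p.2.2} =
          {p : (V × V) × V × V | G.Adj p.2.1 p.2.2} ∩
          (({p : (V × V) × V × V | p.2.1 = p.1.1} ∩ {p : (V × V) × V × V | p.2.2 = p.1.2}) ∪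
          ({p : (V × V) × V × V | p.2.1 = p.1.2} ∩ {p : (V × V) × V × V | p.2.2 = p.1.1}))ᶜ := by
        ext p
        show (G.deleteEdges {s(p.1.1, p.1.2)}).Adj p.2.1 p.2.2 ↔ G.Adj p.2.1 p.2.2 ∧
          ¬ ((p.2.1 = p.1.1 ∧ p.2.2 = p.1.2) ∨ (p.2.1 = p.1.2 ∧ p.2.2 = p.1.1))
        rw [SimpleGraph.deleteEdges_adj, Set.mem_singleton_iff, Sym2.eq_iff]
      rw [h1]
      refine MeasurableSet.inter ?_ (MeasurableSet.compl ?_)
      · exact measurable_snd hG.adj
      · exact ((heq (by fun_prop) (by fun_prop)).inter (heq (by fun_prop) (by fun_prop))).union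
          ((heq (by fun_prop) (by fun_prop)).inter (heq (by fun_prop) (by fun_prop)))
    · intro z x y h
      rw [SimpleGraph.deleteEdges_adj] at h
      exact h.1.reachable
  have hN : Bor2 (NG G).Adj := MeasurableSet.inter hG.adj hN1
  -- partners
  have hOff : MeasurableSet {p : V × V × V | (Off G p.1).Reachable p.2.1 p.2.2} := by
    refine (hREACH V G.Reachable w hE hw (V × V × V) (fun p => Off G p.1) ?_ ?_
      (fun p => p.2.1) (fun p => p.2.2) (by fun_prop) (by fun_prop)).1
    · have h1 : {p : (V × V × V) × V × V | (Off G p.1.1).Adj p.2.1 p.2.2} =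
          {p : (V × V × V) × V × V | G.Adj p.2.1 p.2.2} ∩
          ({p : (V × V × V) × V × V | p.2.1 = p.1.1}ᶜ ∩
          {p : (V × V × V) × V × V | p.2.2 = p.1.1}ᶜ) := by
        ext p
        exact Iff.rfl
      rw [h1]
      refine MeasurableSet.inter (measurable_snd hG.adj) (MeasurableSet.inter ?_ ?_)
      · exact (heq (by fun_prop) (by fun_prop)).compl
      · exact (heq (by fun_prop) (by fun_prop)).compl
    · intro z x y h
      exact h.1.reachable
  have hPT : MeasurableSet {p : V × V × V | PT G p.1 p.2.1 p.2.2} := by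
    have h1 : {p : V × V × V | PT G p.1 p.2.1 p.2.2} =
        ((fun p : V × V × V => (p.1, p.2.1)) ⁻¹' {q : V × V | G.Adj q.1 q.2}) ∩
        (((fun p : V × V × V => (p.1, p.2.2)) ⁻¹' {q : V × V | G.Adj q.1 q.2}) ∩
        ({p : V × V × V | p.2.1 = p.2.2}ᶜ ∩
          {p : V × V × V | (Off G p.1).Reachable p.2.1 p.2.2})) := by
      ext p
      exact Iff.rfl
    rw [h1]
    exact MeasurableSet.inter ((by fun_prop : Measurable (fun p : V × V × V => (p.1, p.2.1))) hG.adj)
      (MeasurableSet.inter ((by fun_prop : Measurable (fun p : V × V × V => (p.1, p.2.2))) hG.adj)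
        (MeasurableSet.inter (heq (by fun_prop) (by fun_prop)).compl hOff))
  -- the graph of the darts
  have hDG : MeasurableSet {p : (V × V) × (V × V) | (DG G).Adj p.1 p.2} := by
    have h1 : {p : (V × V) × (V × V) | (DG G).Adj p.1 p.2} =
        ({p : (V × V) × (V × V) | G.Adj p.1.1 p.1.2} ∩
          ({p : (V × V) × (V × V) | p.2.1 = p.1.2} ∩ {p : (V × V) × (V × V) | p.2.2 = p.1.1})) ∪
        ({p : (V × V) × (V × V) | p.2.1 = p.1.1} ∩
          (fun p : (V × V) × (V × V) => (p.1.1, p.1.2, p.2.2)) ⁻¹'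
            {q : V × V × V | PT G q.1 q.2.1 q.2.2}) := by
      ext p
      exact Iff.rfl
    rw [h1]
    refine MeasurableSet.union (MeasurableSet.inter (measurable_fst hG.adj)
      (MeasurableSet.inter ?_ ?_)) (MeasurableSet.inter ?_ ?_)
    · exact heq (by fun_prop) (by fun_prop)
    · exact heq (by fun_prop) (by fun_prop)
    · exact heq (by fun_prop) (by fun_prop)
    · exact (by fun_prop : Measurable
        (fun p : (V × V) × (V × V) => (p.1.1, p.1.2, p.2.2))) hPT
  obtain ⟨E2, hE2d⟩ : ∃ E2 : V × V → V × V → Prop, ∀ p q, E2 p q ↔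
      (G.Reachable p.1 q.1 ∧ G.Reachable p.2 q.2) := ⟨_, fun _ _ => Iff.rfl⟩
  have hE2 : Equivalence E2 := by
    refine ⟨fun p => (hE2d _ _).2 ⟨SimpleGraph.Reachable.refl _, SimpleGraph.Reachable.refl _⟩,
      fun {p q} h => ?_, fun {p q t} h h' => ?_⟩
    · have := (hE2d _ _).1 h
      exact (hE2d _ _).2 ⟨this.1.symm, this.2.symm⟩
    · have h1 := (hE2d _ _).1 h
      have h2 := (hE2d _ _).1 h'
      exact (hE2d _ _).2 ⟨h1.1.trans h2.1, h1.2.trans h2.2⟩
  obtain ⟨w2, hw2d⟩ : ∃ w2 : ℕ → V × V → V × V, ∀ n p, w2 n p =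
      (w (Nat.unpair n).1 p.1, w (Nat.unpair n).2 p.2) := ⟨_, fun _ _ => rfl⟩
  have hw2 : Enum E2 w2 := by
    refine ⟨fun n => ?_, fun p q => ?_⟩
    · have : w2 n = fun p => (w (Nat.unpair n).1 p.1, w (Nat.unpair n).2 p.2) :=
        funext (hw2d n)
      rw [this]
      exact ((hw.meas _).comp measurable_fst).prodMk ((hw.meas _).comp measurable_snd)
    · rw [hE2d, hw.iff, hw.iff]
      constructor
      · rintro ⟨⟨n, hn⟩, m, hm⟩
        refine ⟨Nat.pair n m, ?_⟩
        rw [hw2d, Nat.unpair_pair]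
        exact Prod.ext hn hm
      · rintro ⟨n, hn⟩
        rw [hw2d] at hn
        exact ⟨⟨_, congrArg Prod.fst hn⟩, _, congrArg Prod.snd hn⟩
  have hDE : ∀ p q, (DG G).Adj p q → E2 p q := by
    rintro ⟨a, b⟩ ⟨a', b'⟩ (⟨h1, h2, h3⟩ | ⟨h1, h2⟩)
    · simp only at h1 h2 h3
      subst h2 h3
      exact (hE2d _ _).2 ⟨h1.reachable, h1.symm.reachable⟩
    · simp only at h1 h2
      subst h1
      exact (hE2d _ _).2 ⟨SimpleGraph.Reachable.refl _, h2.1.symm.reachable.trans h2.2.1.reachable⟩
  have hDR : MeasurableSet {p : (V × V) × (V × V) | (DG G).Reachable p.1 p.2} := by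
    refine (hREACH (V × V) E2 w2 hE2 hw2 ((V × V) × (V × V)) (fun _ => DG G) ?_ ?_
      Prod.fst Prod.snd measurable_fst measurable_snd).1
    · exact measurable_snd hDG
    · intro z p q h
      exact hDE p q h
  have hDRE : ∀ p q, (DG G).Reachable p q → E2 p q := by
    rintro p q ⟨wk⟩
    induction wk with
    | nil => exact hE2.refl _
    | cons h _ ih => exact hE2.trans (hDE _ _ h) ih
  have hA : MeasurableSet {p : (V × V) × (V × V) | (DG G).Reachable p.1 p.2 →
      embeddingReal (V × V) p.1 ≤ embeddingReal (V × V) p.2} := by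
    have h1 : {p : (V × V) × (V × V) | (DG G).Reachable p.1 p.2 →
        embeddingReal (V × V) p.1 ≤ embeddingReal (V × V) p.2} =
        {p : (V × V) × (V × V) | (DG G).Reachable p.1 p.2}ᶜ ∪
        {p : (V × V) × (V × V) | embeddingReal (V × V) p.1 ≤ embeddingReal (V × V) p.2} := by
      ext p
      show ((DG G).Reachable p.1 p.2 → embeddingReal (V × V) p.1 ≤ embeddingReal (V × V) p.2) ↔
        (¬ (DG G).Reachable p.1 p.2) ∨ embeddingReal (V × V) p.1 ≤ embeddingReal (V × V) p.2
      tauto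
    rw [h1]
    exact MeasurableSet.union hDR.compl
      (measurableSet_le (hrm.comp measurable_fst) (hrm.comp measurable_snd))
  have hB := (hEX (V × V) E2 w2 hw2 (V × V) (fun p => p) measurable_id
    (fun p q => (DG G).Reachable p q → embeddingReal (V × V) p ≤ embeddingReal (V × V) q) hA).2
  have hRm : Bor2 (Rm G (embeddingReal (V × V))) := by
    have h1 : {p : V × V | Rm G (embeddingReal (V × V)) p.1 p.2} =
        {p : V × V | (NG G).Adj p.1 p.2} ∩
        {p : V × V | ∀ y, E2 p y → (DG G).Reachable p y →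
          embeddingReal (V × V) p ≤ embeddingReal (V × V) y} := by
      ext p
      constructor
      · rintro ⟨g1, g2⟩
        exact ⟨g1, fun y _ hy => g2 y hy⟩
      · rintro ⟨g1, g2⟩
        exact ⟨g1, fun y hy => g2 y (hDRE _ _ hy) hy⟩
    unfold Bor2
    rw [h1]
    exact MeasurableSet.inter hN hB
  have hRR : Bor2 (RR G (embeddingReal (V × V))) := by
    have h1 : {p : V × V | RR G (embeddingReal (V × V)) p.1 p.2} =
        {p : V × V | Rm G (embeddingReal (V × V)) p.1 p.2} ∪
        Prod.swap ⁻¹' {p : V × V | Rm G (embeddingReal (V × V)) p.1 p.2} := by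
      ext p
      exact Iff.rfl
    unfold Bor2
    rw [h1]
    exact MeasurableSet.union hRm (measurable_swap hRm)
  refine ⟨FF G (embeddingReal (V × V)), FF_le G _, ?_, ?_, ?_, ?_⟩
  · exact MeasurableSet.inter hG.adj (MeasurableSet.compl hRR)
  · exact FF_acyclic hPATH hS
  · intro x
    exact (FF_deg hPATH hr hS h3 x).1
  · intro x
    exact (FF_deg hPATH hr hS h3 x).2

end H31.UF.For4
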