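import Pool.Graph.R_pool_sql_team_seeded_620a6dc7.Helper611.UF.All

/-!
# Borel colourings of Borel graphs with all degrees at least three: statements

The library proves these statements for 3-regular graphs.
-/

set_option autoImplicit false

open MeasureTheory Set

namespace H31.UF

open Pool.Agent.Helper611.UF

def T_FIN : Prop :=
  ∀ (V : Type) [MeasurableSpace V] [StandardBorelSpace V] (G : SimpleGraph V) (Δ : ℕ), BG G Δ →
    (∀ x, 3 ≤ (G.neighborSet x).ncard) →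
    ∀ (Y : Set V) (c : V → Bool), MeasurableSet Y → Measurable c → Core G Y c → Closed G Y c →
    (∀ x, ∃ y ∈ Y, G.Reachable x y) →
    ∃ c' : V → Bool, Measurable c' ∧ ∀ x, Two G Set.univ c' x

def T_FOR : Prop :=
  ∀ (V : Type) [MeasurableSpace V] [StandardBorelSpace V] (G : SimpleGraph V) (Δ : ℕ), BG G Δ →
    (∀ x, 3 ≤ (G.neighborSet x).ncard) →
    (∀ S : Set V, S.Finite → S.Nonempty → ∀ c : V → Bool, ¬ Core G S c) →
    ∃ F : SimpleGraph V, F ≤ G ∧ Bor2 F.Adj ∧ F.IsAcyclic ∧ (∀ x, 2 ≤ (F.neighborSet x).ncard) ∧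
      ∀ x, 3 ≤ (F.neighborSet x).ncard ∨ ∃ y, F.Adj x y ∧ 3 ≤ (F.neighborSet y).ncard

def T_DEG : Prop :=
  ∀ (V : Type) (F : SimpleGraph V) (a : V → V) (Δ : ℕ), F.IsAcyclic → (∀ x, a (a x) = a x) →
    (∀ x, x ≠ a x → ∃ y, F.Adj x y ∧ a y = a x ∧ F.dist y (a x) + 1 = F.dist x (a x)) →
    (∀ x, F.Reachable x (a x)) → (∀ x, {y | a y = a x}.Finite) →
    (∀ x, (F.neighborSet x).encard ≤ Δ) → (∀ x, 2 ≤ (F.neighborSet x).ncard) →
    (∀ x, 3 ≤ (F.neighborSet x).ncard ∨ ∃ y, F.Adj x y ∧ 3 ≤ (F.neighborSet y).ncard) →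
    (∀ x y, a x = x → F.Reachable y x → F.dist y x ≤ 4800 → a y = x) →
    (∀ x y x' y', F.Adj x y → F.Adj x' y' → a x = a x' → a y = a y' → a x ≠ a y →
      x = x' ∧ y = y') →
    ∀ p, 1600 ≤ ((Cells F a).neighborSet p).encard

def T_CELL : Prop :=
  ∀ (V : Type) [MeasurableSpace V] [StandardBorelSpace V] (F : SimpleGraph V) (Δ : ℕ), BG F Δ →
    F.IsAcyclic → (∀ x, 2 ≤ (F.neighborSet x).ncard) →
    (∀ x, 3 ≤ (F.neighborSet x).ncard ∨ ∃ y, F.Adj x y ∧ 3 ≤ (F.neighborSet y).ncard) →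
    ∃ c : V → Bool, Measurable c ∧
      ∀ x, ∃ y, F.Reachable x y ∧ {z | (Alt F c).Reachable y z}.Infinite

def T_CORE : Prop :=
  ∀ (V : Type) [MeasurableSpace V] [StandardBorelSpace V] (G : SimpleGraph V) (Δ : ℕ), BG G Δ →
    (∀ x, 3 ≤ (G.neighborSet x).ncard) → ∀ c : V → Bool, Measurable c →
    (∀ x, {z | (Alt G c).Reachable x z}.Infinite) →
    ∃ (X : Set V) (c' : V → Bool), MeasurableSet X ∧ Measurable c' ∧ Core G X c' ∧
      ∀ x, ∃ y ∈ X, G.Reachable x y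

def T_MAIN : Prop :=
  ∀ (V : Type) [MeasurableSpace V] [StandardBorelSpace V] (G : SimpleGraph V) (Δ : ℕ), BG G Δ →
    (∀ v : V, 3 ≤ (G.neighborSet v).ncard) →
    ∃ c : V → Bool, Measurable c ∧ ∀ v : V, Two G univ c v

/-- three neighbours -/
theorem three {V : Type} {G : SimpleGraph V} {x : V} (h : 3 ≤ (G.neighborSet x).ncard) :
    ∃ a b d, a ≠ b ∧ a ≠ d ∧ b ≠ d ∧ G.Adj x a ∧ G.Adj x b ∧ G.Adj x d := by
  have hf : (G.neighborSet x).Finite := Set.finite_of_ncard_pos (by omega)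
  obtain ⟨a, b, d, ha, hb, hd, h1, h2, h3⟩ := (Set.two_lt_ncard_iff hf).1 (by omega)
  exact ⟨a, b, d, h1, h2, h3, ha, hb, hd⟩

end H31.UF
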