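import Pool.Agent.H31.UF.Fin
import Pool.Agent.H31.UF.Core
import Pool.Agent.H31.UF.Deg
import Pool.Agent.H31.UF.Cell
import Pool.Agent.H31.UF.Main4
import Pool.Agent.H31.UF.For4

/-!
# Borel colourings of Borel graphs of bounded degree which are unfriendly at the vertices of degree
at most four

From the case of the minimal degree three by a doubling of the graph, and a correction at the
vertices of degree one.
-/

set_option autoImplicit false

open MeasureTheory Set

namespace H31.UF.Sub4

open Pool.Agent.Helper611.UF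

/-- Every Borel graph of bounded degree with all degrees at least three has a Borel colouring with
two colours in which every vertex has two neighbours of the other colour. -/
theorem mainThm : T_MAIN := by
  have hQ : S_Q := Q.main (Count.main Mom.main) Tree.main (Ray.main enum ex sel)
  have hVOR : S_VOR := Vor.main enum ex sel reach ball mis
  have hCELL : T_CELL := H31.UF.Cell.main enum ex reach ball hVOR ConC.main H31.UF.Deg.main hQ
  have hFOR : T_FOR := H31.UF.For4.main enum ex reach path
  have hEXT : S_EXT := Ext.main enum ex sel inf reach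
  have hCORE : T_CORE := H31.UF.Core.main enum ex ball mis path
  have hFIN : T_FIN := H31.UF.Fin.main path enum ex sel reach
  have hCLOSE : S_CLOSE := Close.main enum col
  exact H31.UF.Main4.main enum ex hCLOSE hFIN hFOR hCELL hEXT hCORE

variable {V : Type}

/-- flip one bit -/
def fl (s : Fin 3 → Bool) (i : Fin 3) : Fin 3 → Bool := Function.update s i (!s i)

theorem fl_fl (s : Fin 3 → Bool) (i : Fin 3) : fl (fl s i) i = s := by
  funext j
  unfold fl
  by_cases h : j = i
  · subst h; simp
  · simp [h]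

theorem fl_ne (s : Fin 3 → Bool) (i : Fin 3) : fl s i ≠ s := by
  intro h
  have := congrFun h i
  simp [fl] at this

theorem fl_inj (s : Fin 3 → Bool) {i j : Fin 3} (h : fl s i = fl s j) : i = j := by
  by_contra hij
  have := congrFun h i
  simp [fl, hij] at this

/-- the degree -/
noncomputable def dg (G : SimpleGraph V) (x : V) : ℕ := (G.neighborSet x).ncard

/-- the doubled graph -/
def Dbl (G : SimpleGraph V) : SimpleGraph (V × (Fin 3 → Bool)) where
  Adj p q := (p.2 = q.2 ∧ G.Adj p.1 q.1) ∨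
    (p.1 = q.1 ∧ ∃ i : Fin 3, (i : ℕ) + dg G p.1 < 3 ∧ q.2 = fl p.2 i)
  symm := ⟨by
    rintro p q (⟨h1, h2⟩ | ⟨h1, i, h2, h3⟩)
    · exact Or.inl ⟨h1.symm, h2.symm⟩
    · exact Or.inr ⟨h1.symm, i, by rwa [← h1], by rw [h3, fl_fl]⟩⟩
  loopless := ⟨by
    rintro p (⟨h1, h2⟩ | ⟨h1, i, h2, h3⟩)
    · exact G.loopless.irrefl _ h2
    · exact fl_ne _ _ h3.symm⟩

theorem cnt3 (d : ℕ) : {i : Fin 3 | (i : ℕ) + d < 3}.ncard = 3 - d := by
  rcases Nat.lt_or_ge 3 d with h | h
  · have e : {i : Fin 3 | (i : ℕ) + d < 3} = ∅ := by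
      ext i
      simp only [mem_ofPred_eq, mem_empty_iff_false, iff_false]
      omega
    rw [e, Set.ncard_empty]
    omega
  · rw [Set.ncard_eq_toFinset_card']
    interval_cases d <;> decide

theorem Dbl_deg (G : SimpleGraph V) (hfin : ∀ x, (G.neighborSet x).Finite)
    (p : V × (Fin 3 → Bool)) : ((Dbl G).neighborSet p).Finite ∧
      ((Dbl G).neighborSet p).ncard = dg G p.1 + (3 - dg G p.1) := by
  obtain ⟨x, s⟩ := p
  have e : (Dbl G).neighborSet (x, s) = (fun y => (y, s)) '' (G.neighborSet x) ∪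
      (fun i => (x, fl s i)) '' {i : Fin 3 | (i : ℕ) + dg G x < 3} := by
    ext ⟨y, t⟩
    simp only [SimpleGraph.mem_neighborSet, mem_union, mem_image, mem_ofPred_eq, Prod.mk.injEq]
    constructor
    · rintro (⟨h1, h2⟩ | ⟨h1, i, h2, h3⟩)
      · exact Or.inl ⟨y, h2, rfl, h1⟩
      · exact Or.inr ⟨i, h2, h1, h3.symm⟩
    · rintro (⟨z, h1, rfl, rfl⟩ | ⟨i, h1, rfl, rfl⟩)
      · exact Or.inl ⟨rfl, h1⟩
      · exact Or.inr ⟨rfl, i, h1, rfl⟩
  have hdisj : Disjoint ((fun y => (y, s)) '' (G.neighborSet x))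
      ((fun i => (x, fl s i)) '' {i : Fin 3 | (i : ℕ) + dg G x < 3}) := by
    rw [Set.disjoint_left]
    rintro q ⟨y, hy, rfl⟩ ⟨i, _, h⟩
    have h1 := (Prod.mk.inj h).1
    simp only [SimpleGraph.mem_neighborSet] at hy
    rw [← h1] at hy
    exact G.loopless.irrefl _ hy
  have hf1 := (hfin x).image (fun y => (y, s))
  have hf2 := (Set.toFinite {i : Fin 3 | (i : ℕ) + dg G x < 3}).image (fun i => (x, fl s i))
  rw [e]
  refine ⟨hf1.union hf2, ?_⟩
  rw [Set.ncard_union_eq hdisj hf1 hf2,
    Set.ncard_image_of_injective _ (fun a b h => (Prod.mk.inj h).1),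
    Set.ncard_image_of_injective _ (fun a b h => fl_inj s (Prod.mk.inj h).2), cnt3]
  rfl

section

variable [MeasurableSpace V] [StandardBorelSpace V]

/-- the sets of the vertices of large degree are Borel -/
theorem deg_meas {G : SimpleGraph V} {Δ : ℕ} (hG : BG G Δ) (k : ℕ) : MeasurableSet {x | k ≤ dg G x} := by
  classical
  obtain ⟨w, hw, -⟩ := enum V G Δ hG
  have hfin : ∀ x, (G.neighborSet x).Finite := fun x => Set.finite_of_encard_le_coe (hG.deg x)
  have hA : ∀ n, MeasurableSet {x | G.Adj x (w n x)} := fun n =>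
    (measurable_id.prodMk (hw.meas n)) hG.adj
  have key : {x | k ≤ dg G x} = ⋃ s : {s : Finset ℕ // s.card = k},
      ((⋂ n ∈ s.1, {x | G.Adj x (w n x)}) ∩
        ⋂ n ∈ s.1, ⋂ m ∈ s.1, ({x | w n x = w m x}ᶜ ∪ {x | n = m})) := by
    ext x
    simp only [mem_ofPred_eq, mem_iUnion, mem_inter_iff, mem_iInter, mem_union, mem_compl_iff]
    constructor
    · intro hk
      obtain ⟨t, ht, htk⟩ := Set.exists_subset_card_eq (s := G.neighborSet x) hk
      have htf : t.Finite := (hfin x).subset ht
      have hch : ∀ y ∈ t, ∃ n, w n x = y := fun y hy =>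
        (hw.iff x y).1 (SimpleGraph.Adj.reachable (ht hy))
      choose! f hf using hch
      have hinj : Set.InjOn f t := by
        intro y hy z hz h
        rw [← hf y hy, ← hf z hz, h]
      refine ⟨⟨(htf.image f).toFinset, ?_⟩, ?_, ?_⟩
      · rw [← Set.ncard_eq_toFinset_card _ (htf.image f), hinj.ncard_image, htk]
      · intro n hn
        rw [Set.Finite.mem_toFinset] at hn
        obtain ⟨y, hy, rfl⟩ := hn
        rw [hf y hy]
        exact ht hy
      · intro n hn m hm
        rw [Set.Finite.mem_toFinset] at hn hm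
        obtain ⟨y, hy, rfl⟩ := hn
        obtain ⟨z, hz, rfl⟩ := hm
        rw [hf y hy, hf z hz]
        by_cases h : y = z
        · right; rw [h]
        · left; exact h
    · rintro ⟨⟨s, hs⟩, h1, h2⟩
      have hsub : (fun n => w n x) '' (s : Set ℕ) ⊆ G.neighborSet x := by
        rintro _ ⟨n, hn, rfl⟩
        exact h1 n hn
      have hinj : Set.InjOn (fun n => w n x) (s : Set ℕ) := by
        intro n hn m hm h
        rcases h2 n hn m hm with h' | h'
        · exact absurd h h'
        · exact h'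
      have := Set.ncard_le_ncard hsub (hfin x)
      rw [hinj.ncard_image, Set.ncard_coe_finset, hs] at this
      exact this
  rw [key]
  refine MeasurableSet.iUnion fun s => MeasurableSet.inter ?_ ?_
  · exact MeasurableSet.biInter s.1.countable_toSet fun n _ => hA n
  · refine MeasurableSet.biInter s.1.countable_toSet fun n _ =>
      MeasurableSet.biInter s.1.countable_toSet fun m _ => MeasurableSet.union ?_ ?_
    · exact (measurableSet_eq' (hw.meas n) (hw.meas m)).compl
    · exact MeasurableSet.const _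

theorem Dbl_meas {G : SimpleGraph V} {Δ : ℕ} (hG : BG G Δ) :
    MeasurableSet {p : (V × (Fin 3 → Bool)) × (V × (Fin 3 → Bool)) | (Dbl G).Adj p.1 p.2} := by
  have e : {p : (V × (Fin 3 → Bool)) × (V × (Fin 3 → Bool)) | (Dbl G).Adj p.1 p.2} =
      ({p | p.1.2 = p.2.2} ∩ (fun p => (p.1.1, p.2.1)) ⁻¹' {q | G.Adj q.1 q.2}) ∪
      ({p | p.1.1 = p.2.1} ∩ ⋃ i : Fin 3, ((fun p => p.1.1) ⁻¹' {x | 3 - (i : ℕ) ≤ dg G x}ᶜ ∩
        {p | p.2.2 = fl p.1.2 i})) := by
    ext p
    simp only [Dbl, mem_ofPred_eq, mem_union, mem_inter_iff, mem_preimage, mem_iUnion,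
      mem_compl_iff]
    constructor
    · rintro (h | ⟨h1, i, h2, h3⟩)
      · exact Or.inl h
      · exact Or.inr ⟨h1, i, by omega, h3⟩
    · rintro (h | ⟨h1, i, h2, h3⟩)
      · exact Or.inl h
      · exact Or.inr ⟨h1, i, by omega, h3⟩
  rw [e]
  have m1 : Measurable fun p : (V × (Fin 3 → Bool)) × (V × (Fin 3 → Bool)) => p.1.1 :=
    measurable_fst.comp measurable_fst
  have m2 : Measurable fun p : (V × (Fin 3 → Bool)) × (V × (Fin 3 → Bool)) => p.2.1 :=
    measurable_fst.comp measurable_snd
  have m3 : Measurable fun p : (V × (Fin 3 → Bool)) × (V × (Fin 3 → Bool)) => p.1.2 :=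
    measurable_snd.comp measurable_fst
  have m4 : Measurable fun p : (V × (Fin 3 → Bool)) × (V × (Fin 3 → Bool)) => p.2.2 :=
    measurable_snd.comp measurable_snd
  refine MeasurableSet.union (MeasurableSet.inter ?_ ?_) (MeasurableSet.inter ?_ ?_)
  · exact measurableSet_eq' m3 m4
  · exact (m1.prodMk m2) hG.adj
  · exact measurableSet_eq' m1 m2
  · refine MeasurableSet.iUnion fun i => MeasurableSet.inter ?_ ?_
    · exact m1 (deg_meas hG _).compl
    · exact measurableSet_eq' m4 ((Measurable.of_discrete (f := fun s => fl s i)).comp m3)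

/-- Every Borel graph of bounded degree has a Borel colouring with two colours which is unfriendly at
the vertices of degree at most four, and in which the vertices of larger degree have at least two
neighbours of the other colour. -/
theorem sub (G : SimpleGraph V) (hB : MeasurableSet {p : V × V | G.Adj p.1 p.2}) (Δ : ℕ)
    (hΔ : ∀ x, (G.neighborSet x).encard ≤ Δ) :
    ∃ c : V → Bool, Measurable c ∧
      ∀ x, min (G.neighborSet x).ncard 4 ≤ 2 * {y | G.Adj x y ∧ c y ≠ c x}.ncard := by
  classical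
  have hG : BG G Δ := ⟨hB, hΔ⟩
  have hfin : ∀ x, (G.neighborSet x).Finite := fun x => Set.finite_of_encard_le_coe (hΔ x)
  obtain ⟨w, hw, -⟩ := enum V G Δ hG
  have hle : ∀ x, dg G x ≤ Δ := by
    intro x
    have := hΔ x
    rw [← (hfin x).cast_ncard_eq] at this
    exact_mod_cast this
  have hDB : BG (Dbl G) (Δ + 3) := by
    refine ⟨Dbl_meas hG, fun p => ?_⟩
    obtain ⟨h1, h2⟩ := Dbl_deg G hfin p
    rw [← h1.cast_ncard_eq, h2]
    have := hle p.1
    exact_mod_cast (by omega : dg G p.1 + (3 - dg G p.1) ≤ Δ + 3)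
  obtain ⟨c', hc', hu⟩ := mainThm (V × (Fin 3 → Bool)) (Dbl G) (Δ + 3) hDB (fun p => by
    rw [(Dbl_deg G hfin p).2]
    omega)
  -- the colouring of one copy
  obtain ⟨c0, hc0⟩ : ∃ c0 : V → Bool, ∀ x, c0 x = c' (x, fun _ => false) := ⟨_, fun _ => rfl⟩
  have hc0m : Measurable c0 := by
    have : c0 = fun x => c' (x, fun _ => false) := funext hc0
    rw [this]
    exact hc'.comp (measurable_id.prodMk measurable_const)
  have hS2 : ∀ x, 3 ≤ dg G x → 2 ≤ {y | G.Adj x y ∧ c0 y ≠ c0 x}.ncard := by
    intro x hx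
    obtain ⟨⟨y, t⟩, ⟨z, u⟩, hyz, hy, hz, -, -, hcy, hcz⟩ := hu (x, fun _ => false)
    rcases hy with ⟨hy1, hy2⟩ | ⟨-, i, hi, -⟩
    · rcases hz with ⟨hz1, hz2⟩ | ⟨-, i, hi, -⟩
      · simp only at hy1 hy2 hz1 hz2
        subst hy1 hz1
        have hne : y ≠ z := fun h => hyz (by rw [h])
        rw [← Set.ncard_pair hne]
        apply Set.ncard_le_ncard _ ((hfin x).subset fun q hq => hq.1)
        rintro q (rfl | rfl)
        · exact ⟨hy2, by rw [hc0, hc0]; exact hcy⟩
        · exact ⟨hz2, by rw [hc0, hc0]; exact hcz⟩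
      · simp only at hi
        omega
    · simp only at hi
      omega
  have hS1 : ∀ x, 2 ≤ dg G x → 1 ≤ {y | G.Adj x y ∧ c0 y ≠ c0 x}.ncard := by
    intro x hx
    obtain ⟨⟨y, t⟩, ⟨z, u⟩, hyz, hy, hz, -, -, hcy, hcz⟩ := hu (x, fun _ => false)
    have key : ∀ q, G.Adj x q → c' (q, fun _ => false) ≠ c' (x, fun _ => false) →
        1 ≤ {y | G.Adj x y ∧ c0 y ≠ c0 x}.ncard := by
      intro q hq hcq
      exact (Set.ncard_pos ((hfin x).subset fun q hq => hq.1)).2
        ⟨q, hq, by rw [hc0, hc0]; exact hcq⟩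
    rcases hy with ⟨hy1, hy2⟩ | ⟨hy1, i, hi, hy2⟩
    · simp only at hy1 hy2
      subst hy1
      exact key y hy2 hcy
    · rcases hz with ⟨hz1, hz2⟩ | ⟨hz1, j, hj, hz2⟩
      · simp only at hz1 hz2
        subst hz1
        exact key z hz2 hcz
      · exfalso
        simp only at hy1 hz1 hi hj hy2 hz2
        apply hyz
        have hij : i = j := by
          apply Fin.ext
          omega
        rw [← hy1, ← hz1, hy2, hz2, hij]
  -- correction at the vertices of degree one
  obtain ⟨T, hT⟩ : ∃ T : Set V, ∀ x, x ∈ T ↔ (¬ dg G x = 1 ∧ c0 x = true) ∨ (dg G x = 1 ∧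
      ∃ y, G.Reachable x y ∧ (G.Adj x y ∧ ((dg G y = 1 ∧ embeddingReal V x < embeddingReal V y) ∨
        (¬ dg G y = 1 ∧ c0 y = false)))) :=
    ⟨{x | (¬ dg G x = 1 ∧ c0 x = true) ∨ (dg G x = 1 ∧
      ∃ y, G.Reachable x y ∧ (G.Adj x y ∧ ((dg G y = 1 ∧ embeddingReal V x < embeddingReal V y) ∨
        (¬ dg G y = 1 ∧ c0 y = false))))}, fun _ => Iff.rfl⟩
  have hD1 : MeasurableSet {x | dg G x = 1} := by
    have e : {x | dg G x = 1} = {x | 1 ≤ dg G x} \ {x | 2 ≤ dg G x} := by
      ext x
      simp only [mem_ofPred_eq, Set.mem_sdiff]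
      omega
    rw [e]
    exact (deg_meas hG 1).diff (deg_meas hG 2)
  have hTm : MeasurableSet T := by
    have e : T = ({x | dg G x = 1}ᶜ ∩ c0 ⁻¹' {true}) ∪ ({x | dg G x = 1} ∩
        {x | ∃ y, G.Reachable x y ∧ (G.Adj x y ∧
          ((dg G y = 1 ∧ embeddingReal V x < embeddingReal V y) ∨
            (¬ dg G y = 1 ∧ c0 y = false)))}) := by
      ext x
      rw [hT]
      rfl
    rw [e]
    refine (hD1.compl.inter (hc0m (measurableSet_singleton _))).union (hD1.inter ?_)
    refine (ex V G.Reachable w hw V (fun x => x) measurable_id (fun x y => G.Adj x y ∧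
      ((dg G y = 1 ∧ embeddingReal V x < embeddingReal V y) ∨ (¬ dg G y = 1 ∧ c0 y = false))) ?_).1
    refine hB.inter (((measurable_snd hD1).inter ?_).union
      ((measurable_snd hD1).compl.inter ?_))
    · exact measurableSet_lt ((measurable_embeddingReal V).comp measurable_fst)
        ((measurable_embeddingReal V).comp measurable_snd)
    · exact (hc0m.comp measurable_snd) (measurableSet_singleton false)
  refine ⟨fun x => decide (x ∈ T), ?_, ?_⟩
  · apply measurable_to_bool
    have e : (fun x => decide (x ∈ T)) ⁻¹' {true} = T := by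
      ext x; simp
    rw [e]
    exact hTm
  -- facts on the new colouring
  have big : ∀ x, ¬ dg G x = 1 → (x ∈ T ↔ c0 x = true) := by
    intro x hx
    rw [hT]
    constructor
    · rintro (h | h)
      · exact h.2
      · exact absurd h.1 hx
    · intro h
      exact Or.inl ⟨hx, h⟩
  have one : ∀ x y, dg G x = 1 → G.Adj x y → ∀ z, G.Adj x z → z = y := by
    intro x y hx hxy z hxz
    obtain ⟨a, ha⟩ := Set.ncard_eq_one.1 hx
    have h1 : y ∈ G.neighborSet x := hxy
    have h2 : z ∈ G.neighborSet x := hxz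
    rw [ha] at h1 h2
    rw [mem_singleton_iff] at h1 h2
    rw [h1, h2]
  have pend : ∀ x y, dg G x = 1 → G.Adj x y → ¬ dg G y = 1 → (x ∈ T ↔ c0 y = false) := by
    intro x y hx hxy hy
    rw [hT]
    constructor
    · rintro (h | ⟨-, z, -, hz, h | h⟩)
      · exact absurd hx h.1
      · rw [one x y hx hxy z hz] at h
        exact absurd h.1 hy
      · rw [one x y hx hxy z hz] at h
        exact h.2
    · intro h
      exact Or.inr ⟨hx, y, hxy.reachable, hxy, Or.inr ⟨hy, h⟩⟩
  have pair : ∀ x y, dg G x = 1 → G.Adj x y → dg G y = 1 →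
      (x ∈ T ↔ embeddingReal V x < embeddingReal V y) := by
    intro x y hx hxy hy
    rw [hT]
    constructor
    · rintro (h | ⟨-, z, -, hz, h | h⟩)
      · exact absurd hx h.1
      · rw [one x y hx hxy z hz] at h
        exact h.2
      · rw [one x y hx hxy z hz] at h
        exact absurd hy h.1
    · intro h
      exact Or.inr ⟨hx, y, hxy.reachable, hxy, Or.inl ⟨hy, h⟩⟩
  intro x
  have hpos : ∀ x y, G.Adj x y → 1 ≤ dg G x := by
    intro x y h
    have : 0 < (G.neighborSet x).ncard := (Set.ncard_pos (hfin x)).2 ⟨y, h⟩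
    exact this
  by_cases hx : dg G x = 1
  · obtain ⟨y, hy⟩ := Set.ncard_eq_one.1 hx
    have hxy : G.Adj x y := by
      have : y ∈ G.neighborSet x := by rw [hy]; rfl
      exact this
    have hne : decide (y ∈ T) ≠ decide (x ∈ T) := by
      by_cases hy1 : dg G y = 1
      · have h1 := pair x y hx hxy hy1
        have h2 := pair y x hy1 hxy.symm hx
        have h3 : embeddingReal V x ≠ embeddingReal V y := fun h =>
          hxy.ne ((measurableEmbedding_embeddingReal V).injective h)
        rcases lt_or_gt_of_ne h3 with h | h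
        · have a1 : x ∈ T := h1.2 h
          have a2 : y ∉ T := fun h' => absurd (h2.1 h') (not_lt.2 h.le)
          simp [a1, a2]
        · have a1 : x ∉ T := fun h' => absurd (h1.1 h') (not_lt.2 h.le)
          have a2 : y ∈ T := h2.2 h
          simp [a1, a2]
      · have h1 := pend x y hx hxy hy1
        have h2 := big y hy1
        by_cases h : c0 y = true
        · have a2 : y ∈ T := h2.2 h
          have a1 : x ∉ T := fun h' => by
            have := h1.1 h'
            rw [h] at this
            exact Bool.noConfusion this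
          simp [a1, a2]
        · have h' : c0 y = false := by simpa using h
          have a2 : y ∉ T := fun h' => h (h2.1 h')
          have a1 : x ∈ T := h1.2 h'
          simp [a1, a2]
    have h1 : 0 < {z | G.Adj x z ∧ decide (z ∈ T) ≠ decide (x ∈ T)}.ncard :=
      (Set.ncard_pos ((hfin x).subset (fun z hz => hz.1))).2 ⟨y, hxy, hne⟩
    have h2 : (G.neighborSet x).ncard = 1 := hx
    show min (G.neighborSet x).ncard 4 ≤
      2 * {z | G.Adj x z ∧ decide (z ∈ T) ≠ decide (x ∈ T)}.ncard
    omega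
  · have hsub : {y | G.Adj x y ∧ c0 y ≠ c0 x} ⊆
        {z | G.Adj x z ∧ decide (z ∈ T) ≠ decide (x ∈ T)} := by
      rintro z ⟨hz1, hz2⟩
      refine ⟨hz1, ?_⟩
      intro h
      have hz3 : z ∈ T ↔ x ∈ T := decide_eq_decide.1 h
      have hxT := big x hx
      by_cases hzd : dg G z = 1
      · have h1 := pend z x hzd hz1.symm hx
        rw [h1, hxT] at hz3
        cases hcx : c0 x
        · rw [hcx] at hz3; simp at hz3
        · rw [hcx] at hz3; simp at hz3
      · have h1 := big z hzd
        rw [h1, hxT] at hz3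
        apply hz2
        cases hcx : c0 x <;> cases hcz : c0 z <;> rw [hcx, hcz] at hz3 <;> simp_all
    have h1 := Set.ncard_le_ncard hsub ((hfin x).subset (fun z hz => hz.1))
    have h2 := hS2 x
    have h3 := hS1 x
    have h4 : (G.neighborSet x).ncard = dg G x := rfl
    show min (G.neighborSet x).ncard 4 ≤
      2 * {z | G.Adj x z ∧ decide (z ∈ T) ≠ decide (x ∈ T)}.ncard
    rw [h4]
    omega

end

end H31.UF.Sub4
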